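import Pool.Agent.K6.H67.SY.Lower

/-!
A compact connected Riemannian symmetric space whose two-number differs from its total mod 2
Betti number: the quotient of the product of three unit 3-spheres by the group of the triples of
signs with product `1`.
-/

set_option autoImplicit false

open scoped Manifold ContDiff
open Manifold Bundle
open Pool.Agent.K6.H67.SY

namespace Pool.Agent.Results.MP_efd99a_gt.TwoNumberCounterexample

/-- There is a compact connected Riemannian symmetric space `M` whose two-number is `8` while its
total mod 2 Betti number is at least `10`: the two numbers differ. -/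
theorem result :
    ∃ (E : Type) (_ : NormedAddCommGroup E) (_ : NormedSpace ℝ E) (_ : FiniteDimensional ℝ E)
      (H : Type) (_ : TopologicalSpace H) (I : ModelWithCorners ℝ E H) (_ : I.Boundaryless)
      (M : Type) (_ : TopologicalSpace M) (_ : ChartedSpace H M) (_ : IsManifold I ∞ M)
      (_ : T2Space M) (_ : SecondCountableTopology M) (_ : CompactSpace M) (_ : ConnectedSpace M)
      (g : ContMDiffRiemannianMetric I ∞ E (fun x : M => TangentSpace I x))
      (s : M → Diffeomorph I I M M ∞),
      IsSymmetricSpace g s ∧ twoNumber s = 8 ∧ 10 ≤ totalBetti M ∧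
        twoNumber s ≠ totalBetti M := by
  obtain ⟨E, i1, i2, i3, H, i4, I, i5, M, i6, i7, i8, i9, i10, i11, i12, g, s, h1, h2, h3⟩ := main
  refine ⟨E, i1, i2, i3, H, i4, I, i5, M, i6, i7, i8, i9, i10, i11, i12, g, s, h1, h2, h3, ?_⟩
  intro h
  rw [← h, h2] at h3
  exact absurd h3 (by decide)

end Pool.Agent.Results.MP_efd99a_gt.TwoNumberCounterexample
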